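import Pool.Agent.P.MP_f1a348_lc.Tw.Defs

set_option autoImplicit false

namespace Pool.Agent.P.MP_f1a348_lc.Tw

/-- A winning strategy for Duplicator in the bijective pebble game, as a family of finite sets of
pairs. -/
structure Strategy {V W : Type} (G : SimpleGraph V) (H : SimpleGraph W) (k : ℕ)
    (Good : Finset (V × W) → Prop) : Prop where
  empty : Good ∅
  iso : ∀ R, Good R → ∀ p ∈ R, ∀ q ∈ R, (p.1 = q.1 ↔ p.2 = q.2) ∧ (G.Adj p.1 q.1 ↔ H.Adj p.2 q.2)
  ext : ∀ R, Good R → R.card ≤ k → ∃ f : V ≃ W, ∀ w R', (∀ p ∈ R', p = (w, f w) ∨ p ∈ R) → Good R'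

variable {V W : Type} {G : SimpleGraph V} {H : SimpleGraph W} {K : ℕ}
  {Good : Finset (V × W) → Prop}

open Classical in
/-- the set of pairs of two tuples -/
noncomputable def pairs {m : ℕ} (u : Fin m → V) (v : Fin m → W) : Finset (V × W) :=
  Finset.univ.image fun i => (u i, v i)

lemma mem_pairs {m : ℕ} {u : Fin m → V} {v : Fin m → W} {p : V × W} :
    p ∈ pairs u v ↔ ∃ i, (u i, v i) = p := by
  simp [pairs]

lemma card_pairs {m : ℕ} (u : Fin m → V) (v : Fin m → W) : (pairs u v).card ≤ m := by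
  classical
  unfold pairs
  convert Finset.card_image_le
  simp

lemma Strategy.atp_eq (S : Strategy G H K Good) {m : ℕ} {u : Fin m → V} {v : Fin m → W}
    (h : Good (pairs u v)) : atp G u = atp H v := by
  funext i j
  have := S.iso _ h (u i, v i) (mem_pairs.2 ⟨i, rfl⟩) (u j, v j) (mem_pairs.2 ⟨j, rfl⟩)
  exact Prod.ext (propext this.1) (propext this.2)

lemma Strategy.wl_eq [Fintype V] [Fintype W] (S : Strategy G H K Good) {k : ℕ} (hk : k ≤ K) :
    ∀ (r : ℕ) (u : Fin k → V) (v : Fin k → W), Good (pairs u v) → wl G k r u = wl H k r v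
  | 0, u, v, h => S.atp_eq h
  | r + 1, u, v, h => by
    classical
    obtain ⟨f, hf⟩ := S.ext _ h ((card_pairs u v).trans hk)
    refine Prod.ext (S.wl_eq hk r u v h) ?_
    change Multiset.map _ _ = Multiset.map _ _
    rw [← Finset.univ_map_equiv_to_embedding f, Finset.map_val, Multiset.map_map]
    refine Multiset.map_congr rfl fun w _ => Prod.ext ?_ ?_
    · refine S.atp_eq (hf w _ (fun p hp => ?_))
      obtain ⟨i, rfl⟩ := mem_pairs.1 hp
      refine Fin.lastCases ?_ (fun i => ?_) i
      · simp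
      · simp only [Fin.snoc_castSucc]
        exact Or.inr (mem_pairs.2 ⟨i, rfl⟩)
    · funext i
      refine S.wl_eq hk r _ _ (hf w _ (fun p hp => ?_))
      obtain ⟨j, rfl⟩ := mem_pairs.1 hp
      by_cases hj : j = i
      · subst hj; simp
      · simp only [Function.update_of_ne hj]
        exact Or.inr (mem_pairs.2 ⟨j, rfl⟩)

lemma Strategy.exists_equiv (S : Strategy G H K Good) :
    ∀ k ≤ K, ∃ F : (Fin k → V) ≃ (Fin k → W), ∀ u, Good (pairs u (F u))
  | 0, _ => ⟨Equiv.ofUnique _ _, fun u => by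
      convert S.empty
      exact Finset.eq_empty_of_forall_notMem fun p hp => by
        obtain ⟨i, _⟩ := mem_pairs.1 hp; exact i.elim0⟩
  | k + 1, hk => by
    classical
    obtain ⟨F, hF⟩ := S.exists_equiv k (by omega)
    choose f hf using fun u => S.ext _ (hF u) ((card_pairs _ _).trans (by omega))
    refine ⟨((Fin.consEquiv fun _ => V).symm.trans (Equiv.prodComm _ _)).trans
      ((Equiv.prodShear F f).trans ((Equiv.prodComm _ _).trans (Fin.consEquiv fun _ => W))),
      fun u => hf (Fin.tail u) (u 0) _ (fun p hp => ?_)⟩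
    obtain ⟨i, rfl⟩ := mem_pairs.1 hp
    refine Fin.cases ?_ (fun i => ?_) i
    · simp [Fin.consEquiv]
    · refine Or.inr (mem_pairs.2 ⟨i, ?_⟩)
      simp [Fin.consEquiv, Fin.tail]

theorem Strategy.not_distinguishes [Fintype V] [Fintype W] (S : Strategy G H K Good) {k : ℕ}
    (hk : k ≤ K) : ¬ WLDistinguishes k G H := by
  rintro ⟨r, hr⟩
  obtain ⟨F, hF⟩ := S.exists_equiv k hk
  apply hr
  rw [← Finset.univ_map_equiv_to_embedding F, Finset.map_val, Multiset.map_map]
  exact Multiset.map_congr rfl fun u _ => S.wl_eq hk r _ _ (hF u)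

lemma pathGraph_isTree (m : ℕ) : (SimpleGraph.pathGraph (m + 1)).IsTree := by
  refine ⟨SimpleGraph.pathGraph_connected m, ?_⟩
  rw [SimpleGraph.isAcyclic_iff_forall_adj_isBridge]
  have key : ∀ u v : Fin (m + 1), u.val + 1 = v.val →
      ¬ (SimpleGraph.pathGraph (m + 1) \ SimpleGraph.fromEdgeSet {s(u, v)}).Reachable u v := by
    rintro u v huv ⟨p⟩
    have : ∀ {a b : Fin (m + 1)}
        (_ : (SimpleGraph.pathGraph (m + 1) \ SimpleGraph.fromEdgeSet {s(u, v)}).Walk a b),
        a.val ≤ u.val → b.val ≤ u.val := by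
      intro a b q
      induction q with
      | nil => exact id
      | @cons a c _ h _ ih =>
        intro ha
        apply ih
        rw [SimpleGraph.sdiff_adj, SimpleGraph.pathGraph_adj, SimpleGraph.fromEdgeSet_adj] at h
        by_contra hc
        have h1 : a = u := Fin.ext (by omega)
        have h2 : c = v := Fin.ext (by omega)
        subst h1 h2
        exact h.2 ⟨rfl, fun e => by rw [e] at huv; omega⟩
    have := this p le_rfl
    omega
  intro u v huv
  rw [SimpleGraph.isBridge_iff]
  rcases SimpleGraph.pathGraph_adj.1 huv with h | h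
  · exact key u v h
  · intro hr
    have := key v u h
    rw [Sym2.eq_swap] at this
    exact this hr.symm

lemma pathGraph_induce_connected {m : ℕ} (a b : Fin m) (hab : a ≤ b) (S : Set (Fin m))
    (hS : ∀ x, x ∈ S ↔ a ≤ x ∧ x ≤ b) : ((SimpleGraph.pathGraph m).induce S).Connected := by
  have ha : a ∈ S := (hS a).2 ⟨le_rfl, hab⟩
  have key : ∀ (n : ℕ) (x : S), x.1.val = a.val + n →
      ((SimpleGraph.pathGraph m).induce S).Reachable ⟨a, ha⟩ x := by
    intro n
    induction n with
    | zero =>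
      intro x hx
      have : x = ⟨a, ha⟩ := Subtype.ext (Fin.ext hx)
      rw [this]
    | succ n ih =>
      intro x hx
      have hxS := (hS x.1).1 x.2
      have hlt : a.val + n < m := by have := x.1.2; omega
      have hy : (⟨a.val + n, hlt⟩ : Fin m) ∈ S := (hS _).2
        ⟨Fin.le_def.2 (by simp), Fin.le_def.2 (by have := Fin.le_def.1 hxS.2; simp only; omega)⟩
      refine (ih ⟨_, hy⟩ rfl).trans (SimpleGraph.Adj.reachable ?_)
      change (SimpleGraph.pathGraph m).Adj _ _
      rw [SimpleGraph.pathGraph_adj]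
      left
      change a.val + n + 1 = x.1.val
      omega
  have : Nonempty S := ⟨⟨a, ha⟩⟩
  refine ⟨fun x y => ?_⟩
  have hx := Fin.le_def.1 ((hS x.1).1 x.2).1
  have hy := Fin.le_def.1 ((hS y.1).1 y.2).1
  exact (key (x.1.val - a.val) x (by omega)).symm.trans (key (y.1.val - a.val) y (by omega))

/-- an interval representation of small depth -/
structure Intervals {P : Type} [LinearOrder P] (G : SimpleGraph V) (k : ℕ) (l r : V → P) :
    Prop where
  le : ∀ v, l v ≤ r v
  adj : ∀ u v, G.Adj u v → l u ≤ r v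
  depth : ∀ p, {v | l v ≤ p ∧ p ≤ r v}.ncard ≤ k + 1

theorem Intervals.pathwidthLE [Fintype V] {P : Type} [LinearOrder P] [Fintype P] [Nonempty P]
    {k : ℕ} {l r : V → P} (h : Intervals G k l r) : PathwidthLE G k := by
  classical
  obtain ⟨m, hm⟩ : ∃ m, Fintype.card P = m + 1 :=
    Nat.exists_eq_succ_of_ne_zero Fintype.card_ne_zero
  let e := monoEquivOfFin P hm
  refine ⟨m + 1, fun t => Finset.univ.filter fun v => l v ≤ e t ∧ e t ≤ r v,
    ⟨pathGraph_isTree m, fun v => ?_, fun u v huv => ?_⟩, fun t => ?_⟩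
  · refine pathGraph_induce_connected (e.symm (l v)) (e.symm (r v))
      (e.symm.monotone (h.le v)) _ fun x => ?_
    simp only [Finset.mem_filter, Finset.mem_univ, true_and, Set.mem_ofPred_eq]
    rw [e.symm_apply_le, e.le_symm_apply]
  · refine ⟨e.symm (max (l u) (l v)), ?_, ?_⟩
    · simp only [Finset.mem_filter, Finset.mem_univ, true_and, OrderIso.apply_symm_apply]
      exact ⟨le_max_left _ _, max_le (h.le u) (h.adj v u huv.symm)⟩
    · simp only [Finset.mem_filter, Finset.mem_univ, true_and, OrderIso.apply_symm_apply]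
      exact ⟨le_max_right _ _, max_le (h.adj u v huv) (h.le v)⟩
  · have := h.depth (e t)
    rwa [← Set.ncard_coe_finset, Finset.coe_filter_univ]

end Pool.Agent.P.MP_f1a348_lc.Tw
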