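import Mathlib

set_option autoImplicit false

namespace Pool.Agent.P.MP_f1a348_lc.Tw

/-- The atomic type of an `m`-tuple of vertices: its pattern of equalities and adjacencies. -/
def atp {V : Type} (G : SimpleGraph V) {m : ℕ} (v : Fin m → V) : Fin m → Fin m → Prop × Prop :=
  fun i j => (v i = v j, G.Adj (v i) (v j))

/-- The colours used by the `k`-dimensional Weisfeiler-Leman algorithm in round `r`. -/
def Colour (k : ℕ) : ℕ → Type
  | 0 => Fin k → Fin k → Prop × Prop
  | r + 1 => Colour k r ×
      Multiset ((Fin (k + 1) → Fin (k + 1) → Prop × Prop) × (Fin k → Colour k r))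

/-- The colour of a `k`-tuple after `r` rounds of the `k`-dimensional Weisfeiler-Leman
algorithm. -/
def wl {V : Type} [Fintype V] (G : SimpleGraph V) (k : ℕ) : (r : ℕ) → (Fin k → V) → Colour k r
  | 0, v => atp G v
  | r + 1, v => (wl G k r v, (Finset.univ : Finset V).val.map fun w =>
      (atp G (Fin.snoc v w : Fin (k + 1) → V), fun i => wl G k r (Function.update v i w)))

/-- The `k`-dimensional Weisfeiler-Leman algorithm distinguishes `G` and `H`: in some round the
multisets of colours of all `k`-tuples differ. -/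
def WLDistinguishes (k : ℕ) {V W : Type} [Fintype V] [Fintype W] (G : SimpleGraph V)
    (H : SimpleGraph W) : Prop :=
  ∃ r : ℕ, (Finset.univ : Finset (Fin k → V)).val.map (wl G k r) ≠
    (Finset.univ : Finset (Fin k → W)).val.map (wl H k r)

/-- `(T, B)` is a tree decomposition of `G`. -/
structure IsTreeDecomposition {V τ : Type} (G : SimpleGraph V) (T : SimpleGraph τ)
    (B : τ → Finset V) : Prop where
  tree : T.IsTree
  vertex : ∀ v, (T.induce {t | v ∈ B t}).Connected
  edge : ∀ u v, G.Adj u v → ∃ t, u ∈ B t ∧ v ∈ B t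

/-- `G` has a tree decomposition of width at most `k` whose tree is a path. -/
def PathwidthLE {V : Type} (G : SimpleGraph V) (k : ℕ) : Prop :=
  ∃ (m : ℕ) (B : Fin m → Finset V),
    IsTreeDecomposition G (SimpleGraph.pathGraph m) B ∧ ∀ t, (B t).card ≤ k + 1

end Pool.Agent.P.MP_f1a348_lc.Tw
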