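import Pool.Agent.P.MP_f1a348_lc.Tw.Leaves

set_option autoImplicit false

namespace Pool.Agent.P.MP_f1a348_lc.Tw

/-- vertices of the twisted grid graphs -/
inductive Pt (t L : ℕ) : Type
  | v (i : Fin t) (j : Fin (L + 1)) (a : ZMod 3)
  | w (i : Fin (t + 1)) (j : Fin L) (e : ZMod 2)
  | x (i : Fin t) (j : Fin L) (a b : ZMod 3) (e e' : ZMod 2)
  deriving DecidableEq

instance (t L : ℕ) : Finite (Pt t L) := by
  refine Finite.of_surjective (fun q : (Fin t × Fin (L + 1) × ZMod 3) ⊕
      (Fin (t + 1) × Fin L × ZMod 2) ⊕ (Fin t × Fin L × (ZMod 3 × ZMod 3) × ZMod 2 × ZMod 2) =>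
    match q with
    | .inl q => Pt.v q.1 q.2.1 q.2.2
    | .inr (.inl q) => Pt.w q.1 q.2.1 q.2.2
    | .inr (.inr q) => Pt.x q.1 q.2.1 q.2.2.1.1 q.2.2.1.2 q.2.2.2.1 q.2.2.2.2) fun p => ?_
  cases p with
  | v i j a => exact ⟨.inl (i, j, a), rfl⟩
  | w i j e => exact ⟨.inr (.inl (i, j, e)), rfl⟩
  | x i j a b e e' => exact ⟨.inr (.inr (i, j, (a, b), e, e')), rfl⟩

noncomputable instance (t L : ℕ) : Fintype (Pt t L) := Fintype.ofFinite _

/-- the sign character with values in `ZMod 3` -/
def sg (e : ZMod 2) : ZMod 3 := if e = 0 then 1 else -1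

lemma sg_inj (ε : ZMod 2) (c a a' : ZMod 3) : sg ε * a + c = sg ε * a' + c ↔ a = a' := by
  revert ε c a a'; decide

lemma sg_key (ε ε' T s s' e e' : ZMod 2) (A B : ZMod 3) :
    (sg ε * A) * (sg ε' * B) = sg (T + (ε + ε' + s + s') + (e + s) + (e' + s')) ↔
      A * B = sg (T + e + e') := by
  revert ε ε' T s s' e e' A B; decide

variable {t L : ℕ}

/-- the defining relation of the graph with twist `T` -/
def rel (T : Fin t → Fin L → ZMod 2) : Pt t L → Pt t L → Prop
  | .x i j a b _ _, .v i' j' y => i' = i ∧ ((j' = j.castSucc ∧ y = a) ∨ (j' = j.succ ∧ y = b))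
  | .x i j _ _ e e', .w i' j' y => j' = j ∧ ((i' = i.castSucc ∧ y = e) ∨ (i' = i.succ ∧ y = e'))
  | .x i j a b e e', .x i' j' a' b' f f' =>
      i' = i ∧ j' = j ∧ f = e ∧ f' = e' ∧ (a - a') * (b - b') = sg (T i j + e + e')
  | _, _ => False

/-- the graph with twist `T` -/
def gr (T : Fin t → Fin L → ZMod 2) : SimpleGraph (Pt t L) := SimpleGraph.fromRel (rel T)

/-- colour classes, named by a representative -/
def colour : Pt t L → Pt t L
  | .v i j a => .v i j (if j.val = 0 ∨ j.val = L then a else 0)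
  | .w i j e => .w i j (if i.val = 0 ∨ i.val = t then e else 0)
  | .x i j _ _ _ _ => .x i j 0 0 0 0

/-- column -/
def col : Pt t L → ℕ
  | .v _ j _ => j
  | .w _ j _ => j
  | .x _ j _ _ _ _ => j

/-- row -/
def row : Pt t L → ℕ
  | .v i _ _ => i
  | .w i _ _ => i
  | .x i _ _ _ _ _ => i

lemma col_colour (p : Pt t L) : col (colour p) = col p := by cases p <;> rfl

lemma col_eq_of_colour {p q : Pt t L} (h : colour p = colour q) : col p = col q := by
  rw [← col_colour p, h, col_colour]

/-- the action of a family of affine maps and flips -/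
def act (ε : Fin t → Fin (L + 1) → ZMod 2) (c : Fin t → Fin (L + 1) → ZMod 3)
    (s : Fin (t + 1) → Fin L → ZMod 2) : Pt t L → Pt t L
  | .v i j a => .v i j (sg (ε i j) * a + c i j)
  | .w i j e => .w i j (e + s i j)
  | .x i j a b e e' => .x i j (sg (ε i j.castSucc) * a + c i j.castSucc)
      (sg (ε i j.succ) * b + c i j.succ) (e + s i.castSucc j) (e' + s i.succ j)

lemma act_injective (ε : Fin t → Fin (L + 1) → ZMod 2) (c : Fin t → Fin (L + 1) → ZMod 3)
    (s : Fin (t + 1) → Fin L → ZMod 2) : Function.Injective (act ε c s) := by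
  intro p q h
  cases p <;> cases q <;> simp only [act, reduceCtorEq, Pt.v.injEq, Pt.w.injEq, Pt.x.injEq] at h ⊢
  · obtain ⟨rfl, rfl, h⟩ := h
    exact ⟨rfl, rfl, (sg_inj _ _ _ _).1 h⟩
  · obtain ⟨rfl, rfl, h⟩ := h
    exact ⟨rfl, rfl, add_right_cancel h⟩
  · obtain ⟨rfl, rfl, h1, h2, h3, h4⟩ := h
    exact ⟨rfl, rfl, (sg_inj _ _ _ _).1 h1, (sg_inj _ _ _ _).1 h2, add_right_cancel h3,
      add_right_cancel h4⟩

lemma rel_act (ε : Fin t → Fin (L + 1) → ZMod 2) (c : Fin t → Fin (L + 1) → ZMod 3)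
    (s : Fin (t + 1) → Fin L → ZMod 2) (T T' : Fin t → Fin L → ZMod 2)
    (hT : ∀ i j, T' i j = T i j + (ε i j.castSucc + ε i j.succ + s i.castSucc j + s i.succ j))
    (p q : Pt t L) : rel T' (act ε c s p) (act ε c s q) ↔ rel T p q := by
  cases p <;> cases q <;> simp only [act, rel]
  · refine and_congr_right fun h => ?_
    subst h
    refine or_congr (and_congr_right fun h => ?_) (and_congr_right fun h => ?_)
    · subst h; exact sg_inj _ _ _ _
    · subst h; exact sg_inj _ _ _ _
  · refine and_congr_right fun h => ?_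
    subst h
    refine or_congr (and_congr_right fun h => ?_) (and_congr_right fun h => ?_)
    · subst h; exact add_left_inj _
    · subst h; exact add_left_inj _
  · refine and_congr_right fun h => and_congr_right fun h' => ?_
    subst h h'
    refine and_congr (add_left_inj _) (and_congr (add_left_inj _) ?_)
    rw [hT, add_sub_add_right_eq_sub, add_sub_add_right_eq_sub, ← mul_sub, ← mul_sub]
    exact sg_key _ _ _ _ _ _ _ _ _

lemma colour_act (ε : Fin t → Fin (L + 1) → ZMod 2) (c : Fin t → Fin (L + 1) → ZMod 3)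
    (s : Fin (t + 1) → Fin L → ZMod 2)
    (h1 : ∀ i j, j.val = 0 ∨ j.val = L → ε i j = 0 ∧ c i j = 0)
    (h2 : ∀ i j, i.val = 0 ∨ i.val = t → s i j = 0) (p : Pt t L) :
    colour (act ε c s p) = colour p := by
  cases p <;> simp only [act, colour]
  · split_ifs with h
    · simp [(h1 _ _ h).1, (h1 _ _ h).2, sg]
    · rfl
  · split_ifs with h
    · simp [h2 _ _ h]
    · rfl

lemma rel_congr {T T' : Fin t → Fin L → ZMod 2} {p : Pt t L}
    (h : ∀ i j, j.val = col p → T i j = T' i j) (q : Pt t L) : rel T p q ↔ rel T' p q := by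
  cases p <;> cases q <;> simp only [rel]
  rw [h _ _ rfl]

/-- indicator of a grid node -/
def dl (i₀ : Fin t) (j₀ : Fin L) (i : Fin t) (j : Fin L) : ZMod 2 :=
  if i = i₀ ∧ j = j₀ then 1 else 0

lemma ite_zero_mul_ite_zero_one (P Q : Prop) [Decidable P] [Decidable Q] :
    (if P then (1 : ZMod 2) else 0) * (if Q then 1 else 0) = if P ∧ Q then 1 else 0 := by
  by_cases P <;> by_cases Q <;> simp [*]

/-- threshold indicator -/
def th (a b : ℕ) : ZMod 2 := if a < b then 1 else 0

lemma th_step (a b : ℕ) : th a b + th a (b + 1) = if b = a then 1 else 0 := by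
  unfold th
  split_ifs <;> first | omega | decide

/-- the point of a horizontal class seen by a pebble -/
def rev : Pt t L → Fin (L + 1) → ZMod 3
  | .v _ _ a, _ => a
  | .w _ _ _, _ => 0
  | .x _ j a b _ _, j' => if j' = j.castSucc then a else b

lemma refl_fix (ε : ZMod 2) (a : ZMod 3) : sg ε * a + (1 - sg ε) * a = a := by ring

theorem exists_move (P : Finset (Pt t L)) (hP : P.card < 2 * t) (i₁ : Fin t) (j₁ j₂ : Fin L)
    (h₁ : ∀ p ∈ P, col p ≠ j₁) (h₂ : ∀ p ∈ P, col p ≠ j₂) :
    ∃ g : Pt t L → Pt t L, Function.Injective g ∧ (∀ p, colour (g p) = colour p) ∧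
      (∀ p ∈ P, g p = p) ∧ ∀ (T T' : Fin t → Fin L → ZMod 2),
        (∀ i j, T' i j = T i j + (dl i₁ j₁ i j + dl i₁ j₂ i j)) →
        ∀ p q, rel T' (g p) (g q) ↔ rel T p q := by
  obtain ⟨r, hr, hc⟩ := Finset.exists_card_fiber_lt_of_card_lt_mul (s := P) (t := Finset.range t)
    (f := row) (n := 2) (by rw [Finset.card_range]; omega)
  have hr' : r < t := Finset.mem_range.1 hr
  obtain ⟨p₀, hp₀⟩ : ∃ p₀ : Pt t L, ∀ p ∈ P, row p = r → p = p₀ := by
    have : Nonempty (Pt t L) := ⟨.v i₁ 0 0⟩
    obtain ⟨p₀, h⟩ := Finset.card_le_one_iff_subset_singleton.1 (Nat.lt_succ_iff.1 hc)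
    exact ⟨p₀, fun p hp h' => Finset.mem_singleton.1 (h (Finset.mem_filter.2 ⟨hp, h'⟩))⟩
  let ε : Fin t → Fin (L + 1) → ZMod 2 := fun i j =>
    if i.val = r then th j₁ j + th j₂ j else 0
  let c : Fin t → Fin (L + 1) → ZMod 3 := fun i j => (1 - sg (ε i j)) * rev p₀ j
  let s : Fin (t + 1) → Fin L → ZMod 2 := fun i j =>
    ((if j = j₁ then 1 else 0) + (if j = j₂ then 1 else 0)) * (th i₁ i + th r i)
  have hfix : ∀ (i : Fin t) (j : Fin (L + 1)) (a : ZMod 3), (i.val = r → rev p₀ j = a) →
      sg (ε i j) * a + c i j = a := by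
    intro i j a h
    by_cases hi : i.val = r
    · simp only [c, h hi]; ring
    · simp [c, ε, hi, sg]
  have hs : ∀ (i : Fin (t + 1)) (j : Fin L), j.val ≠ j₁ → j.val ≠ j₂ → s i j = 0 := by
    intro i j a b
    have a' : j ≠ j₁ := fun e => a (congrArg Fin.val e)
    have b' : j ≠ j₂ := fun e => b (congrArg Fin.val e)
    simp [s, a', b']
  refine ⟨act ε c s, act_injective _ _ _, colour_act _ _ _ ?_ ?_, ?_,
    fun T T' hT => rel_act _ _ _ _ _ fun i j => ?_⟩
  · intro i j hj
    have : ε i j = 0 := by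
      have a := j₁.2
      have b := j₂.2
      simp only [ε, th]
      split_ifs <;> first | omega | decide
    exact ⟨this, by simp [c, this, sg]⟩
  · intro i j hi
    have : th i₁ i + th r i = 0 := by
      have a := i₁.2
      simp only [th]
      split_ifs <;> first | omega | decide
    simp [s, this]
  · intro p hp
    have e1 := h₁ p hp
    have e2 := h₂ p hp
    have e3 := hp₀ p hp
    cases p with
    | v i j a =>
      simp only [act]
      rw [hfix i j a fun h => by rw [← e3 h]; rfl]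
    | w i j e =>
      simp only [act]
      rw [hs i j e1 e2, add_zero]
    | x i j a b e e' =>
      simp only [act]
      rw [hfix i j.castSucc a fun h => by rw [← e3 h]; simp [rev],
        hfix i j.succ b fun h => by rw [← e3 h]; simp [rev, (Fin.castSucc_lt_succ).ne'],
        hs _ j e1 e2, hs _ j e1 e2, add_zero, add_zero]
  · rw [hT]
    congr 1
    have a1 := th_step j₁ j
    have a2 := th_step j₂ j
    have a3 := th_step i₁ i
    have a4 := th_step r i
    have b1 : ε i j.castSucc + ε i j.succ = (if i.val = r then 1 else 0) *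
        ((if j = j₁ then 1 else 0) + (if j = j₂ then 1 else 0)) := by
      simp only [ε, Fin.val_castSucc, Fin.val_succ, Fin.ext_iff]
      rw [← a1, ← a2]
      split_ifs <;> ring
    have b2 : s i.castSucc j + s i.succ j =
        ((if j = j₁ then 1 else 0) + (if j = j₂ then 1 else 0)) *
          ((if i = i₁ then 1 else 0) + (if i.val = r then 1 else 0)) := by
      simp only [s, Fin.val_castSucc, Fin.val_succ, Fin.ext_iff (a := i)]
      rw [← a3, ← a4]
      ring
    rw [add_assoc, b1, b2]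
    simp only [dl, ← ite_zero_mul_ite_zero_one]
    generalize (if i = i₁ then (1 : ZMod 2) else 0) = A
    generalize (if j = j₁ then (1 : ZMod 2) else 0) = B
    generalize (if j = j₂ then (1 : ZMod 2) else 0) = C
    generalize (if i.val = r then (1 : ZMod 2) else 0) = D
    revert A B C D
    decide

theorem exists_strategy (i₀ : Fin t) (j₀ : Fin L) (hL : 2 * t < L) :
    ∃ Good, Strategy (gr (fun _ _ => 0)) (gr (dl i₀ j₀)) (2 * t - 1) Good ∧
      ∀ R, Good R → ∀ p ∈ R, colour p.1 = colour p.2 := by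
  have ht : 0 < t := i₀.pos
  refine ⟨fun R => ∃ (φ : Pt t L → Pt t L) (i : Fin t) (j : Fin L), Function.Injective φ ∧
    (∀ p, colour (φ p) = colour p) ∧
    (∀ p q, rel (fun a b => dl i₀ j₀ a b + dl i j a b) (φ p) (φ q) ↔ rel (fun _ _ => 0) p q) ∧
    (∀ p ∈ R, φ p.1 = p.2) ∧ ∀ p ∈ R, col p.2 ≠ j, ⟨?_, ?_, ?_⟩, ?_⟩
  · refine ⟨id, i₀, j₀, Function.injective_id, fun _ => rfl, fun p q => ?_, by simp, by simp⟩
    simp only [CharTwo.add_self_eq_zero, id]
  · rintro R ⟨φ, i, j, hi, -, hr, hR, hj⟩ p hp q hq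
    have key : ∀ p ∈ R, ∀ q ∈ R, rel (fun _ _ => 0) p.1 q.1 ↔ rel (dl i₀ j₀) p.2 q.2 := by
      intro p hp q hq
      rw [← hr, hR p hp, hR q hq]
      refine rel_congr (fun a b h => ?_) _
      have : b ≠ j := fun e => hj p hp (by rw [← h, e])
      simp [dl, this]
    have key2 : p.1 = q.1 ↔ p.2 = q.2 := by rw [← hR p hp, ← hR q hq, hi.eq_iff]
    refine ⟨key2, ?_⟩
    simp only [gr, SimpleGraph.fromRel_adj, ne_eq, key2, key p hp q hq, key q hq p hp]
  · rintro R ⟨φ, i, j, hi, hc, hr, hR, hj⟩ hcard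
    have hP : (R.image Prod.snd).card < 2 * t := by
      have := Finset.card_image_le (s := R) (f := Prod.snd)
      omega
    have free : ∀ n : ℕ, ∃ j₂ : Fin L, j₂.val ≠ n ∧ ∀ p ∈ R.image Prod.snd, col p ≠ j₂ := by
      intro n
      have : (insert n ((R.image Prod.snd).image col)).card < (Finset.range L).card := by
        have h1 := Finset.card_insert_le n ((R.image Prod.snd).image col)
        have h2 := Finset.card_image_le (s := R.image Prod.snd) (f := col)
        rw [Finset.card_range]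
        omega
      obtain ⟨a, ha, ha'⟩ := Finset.exists_mem_notMem_of_card_lt_card this
      refine ⟨⟨a, Finset.mem_range.1 ha⟩, fun e => ha' ?_, fun p hp e => ha' ?_⟩
      · rw [← e]; exact Finset.mem_insert_self _ _
      · exact Finset.mem_insert_of_mem (Finset.mem_image.2 ⟨p, hp, e⟩)
    choose J hJ hJ' using free
    choose g g1 g2 g3 g4 using fun n => exists_move _ hP i j (J n) (fun p hp => by
      obtain ⟨q, hq, rfl⟩ := Finset.mem_image.1 hp
      exact hj q hq) (hJ' n)
    have hcol : ∀ n w, col (g n (φ w)) = col w := fun n w =>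
      col_eq_of_colour ((g2 n _).trans (hc w))
    have hf : Function.Injective fun w => g (col w) (φ w) := by
      intro a b h
      have h1 : col a = col b := by
        have := congrArg col h
        simpa only [hcol] using this
      simp only [h1] at h
      exact hi (g1 _ h)
    refine ⟨Equiv.ofBijective _ (Finite.injective_iff_bijective.1 hf), fun w R' hR' =>
      ⟨fun p => g (col w) (φ p), i, J (col w), (g1 _).comp hi, fun p => (g2 _ _).trans (hc p),
        fun p q => ?_, fun p hp => ?_, fun p hp => ?_⟩⟩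
    · rw [← hr]
      refine g4 _ _ _ (fun a b => ?_) _ _
      rw [add_assoc, ← add_assoc (dl i j a b), CharTwo.add_self_eq_zero, zero_add]
    · rcases hR' p hp with rfl | hp
      · rfl
      · change g _ (φ p.1) = _
        rw [hR p hp]
        exact g3 _ _ (Finset.mem_image_of_mem _ hp)
    · rcases hR' p hp with rfl | hp
      · change col (g (col w) (φ w)) ≠ _
        rw [hcol]
        exact (hJ _).symm
      · exact hJ' _ _ (Finset.mem_image_of_mem _ hp)
  · rintro R ⟨φ, i, j, -, hc, -, hR, -⟩ p hp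
    rw [← hR p hp, hc]

end Pool.Agent.P.MP_f1a348_lc.Tw
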