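import Pool.Agent.P.MP_f1a348_lc.Tw.WL

set_option autoImplicit false

namespace Pool.Agent.P.MP_f1a348_lc.Tw

variable {V : Type} {M : ℕ}

/-- vertices of the graph with `c x` pendant leaves attached at `x` -/
abbrev LV (c : V → ℕ) (M : ℕ) : Type := {q : V × Fin (M + 1) // q.2.val ≤ c q.1}

/-- the graph with leaves -/
def leafy (G : SimpleGraph V) (c : V → ℕ) (M : ℕ) : SimpleGraph (LV c M) where
  Adj q q' := (q.1.2 = 0 ∧ q'.1.2 = 0 ∧ G.Adj q.1.1 q'.1.1) ∨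
    (q.1.1 = q'.1.1 ∧ ((q.1.2 = 0 ∧ q'.1.2 ≠ 0) ∨ (q.1.2 ≠ 0 ∧ q'.1.2 = 0)))
  symm := ⟨fun _ _ h => by
    rcases h with ⟨a, b, c⟩ | ⟨a, b⟩
    · exact Or.inl ⟨b, a, c.symm⟩
    · exact Or.inr ⟨a.symm, by tauto⟩⟩
  loopless := ⟨fun _ h => by
    rcases h with ⟨_, _, c⟩ | ⟨_, b⟩
    · exact G.irrefl c
    · tauto⟩

/-- the root over `x` -/
def root (c : V → ℕ) (M : ℕ) (x : V) : LV c M := ⟨(x, 0), Nat.zero_le _⟩

variable {G H : SimpleGraph V} {c : V → ℕ}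

theorem Strategy.leafy {K : ℕ} {Good : Finset (V × V) → Prop} (S : Strategy G H K Good)
    (hc : ∀ R, Good R → ∀ p ∈ R, c p.1 = c p.2) :
    ∃ Good', Strategy (leafy G c M) (leafy H c M) K Good' := by
  classical
  let π : LV c M × LV c M → V × V := fun p => (p.1.1.1, p.2.1.1)
  refine ⟨fun R => Good (R.image π) ∧ ∀ p ∈ R, p.1.1.2 = p.2.1.2, ?_, ?_, ?_⟩
  · exact ⟨by simpa using S.empty, by simp⟩
  · intro R hR p hp q hq
    have h1 := S.iso _ hR.1 _ (Finset.mem_image_of_mem π hp) _ (Finset.mem_image_of_mem π hq)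
    have h2 := hR.2 p hp
    have h3 := hR.2 q hq
    simp only [π] at h1
    refine ⟨?_, ?_⟩
    · rw [Subtype.ext_iff, Subtype.ext_iff, Prod.ext_iff, Prod.ext_iff, h1.1, h2, h3]
    · simp only [Tw.leafy]
      rw [h1.1, h1.2, h2, h3]
  · intro R hR hK
    obtain ⟨f, hf⟩ := S.ext _ hR.1 (Finset.card_image_le.trans hK)
    have hfc : ∀ w, c w = c (f w) := fun w =>
      hc {(w, f w)} (hf w _ fun p hp => Or.inl (Finset.mem_singleton.1 hp)) _
        (Finset.mem_singleton_self _)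
    refine ⟨(f.prodCongr (Equiv.refl _)).subtypeEquiv fun q => by simp [← hfc],
      fun w R' hR' => ⟨hf w.1.1 _ fun p hp => ?_, fun p hp => ?_⟩⟩
    · obtain ⟨q, hq, rfl⟩ := Finset.mem_image.1 hp
      rcases hR' q hq with rfl | hq
      · left; simp [π]
      · exact Or.inr (Finset.mem_image_of_mem π hq)
    · rcases hR' p hp with rfl | hp
      · simp
      · exact hR.2 p hp

lemma leafy_leaf_iff (hc2 : ∀ x, 2 ≤ c x) (hcM : ∀ x, c x ≤ M) (q : LV c M) :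
    q.1.2 ≠ 0 ↔ ∀ y y', (leafy G c M).Adj q y → (leafy G c M).Adj q y' → y = y' := by
  constructor
  · intro h y y' hy hy'
    simp only [Tw.leafy] at hy hy'
    apply Subtype.ext
    apply Prod.ext
    · have h1 : q.1.1 = y.1.1 := by tauto
      have h2 : q.1.1 = y'.1.1 := by tauto
      rw [← h1, ← h2]
    · have h1 : y.1.2 = 0 := by tauto
      have h2 : y'.1.2 = 0 := by tauto
      rw [h1, h2]
  · intro h h0
    have h2 := hc2 q.1.1
    have hM := hcM q.1.1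
    have := h ⟨(q.1.1, ⟨1, by omega⟩), by simp only; omega⟩ ⟨(q.1.1, ⟨2, by omega⟩), h2⟩
      (Or.inr ⟨rfl, Or.inl ⟨h0, by simp [Fin.ext_iff]⟩⟩)
      (Or.inr ⟨rfl, Or.inl ⟨h0, by simp [Fin.ext_iff]⟩⟩)
    simp [Fin.ext_iff] at this

lemma leafy_iso_leaf (hc2 : ∀ x, 2 ≤ c x) (hcM : ∀ x, c x ≤ M)
    (ψ : leafy G c M ≃g leafy H c M) (q : LV c M) : (ψ q).1.2 = 0 ↔ q.1.2 = 0 := by
  rw [← not_iff_not]
  change (ψ q).1.2 ≠ 0 ↔ q.1.2 ≠ 0
  rw [leafy_leaf_iff (G := H) hc2 hcM, leafy_leaf_iff (G := G) hc2 hcM]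
  constructor
  · intro h y y' hy hy'
    exact ψ.injective (h _ _ (ψ.map_adj_iff.2 hy) (ψ.map_adj_iff.2 hy'))
  · intro h y y' hy hy'
    obtain ⟨y, rfl⟩ := ψ.surjective y
    obtain ⟨y', rfl⟩ := ψ.surjective y'
    rw [h _ _ (ψ.map_adj_iff.1 hy) (ψ.map_adj_iff.1 hy')]

lemma ncard_leaves (hcM : ∀ x, c x ≤ M) (x : V) :
    {y : LV c M | y.1.1 = x ∧ y.1.2 ≠ 0}.ncard = c x := by
  have h1 : (Set.Icc 1 (c x)).ncard = c x := by
    rw [← Finset.coe_Icc, Set.ncard_coe_finset]; simp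
  rw [← h1]
  refine Set.ncard_congr (fun y _ => y.1.2.val) ?_ ?_ ?_
  · rintro ⟨⟨a, i⟩, hi⟩ ⟨rfl, h0⟩
    exact ⟨Nat.one_le_iff_ne_zero.2 fun e => h0 (Fin.ext e), hi⟩
  · rintro ⟨⟨a, i⟩, hi⟩ ⟨⟨b, j⟩, hj⟩ ⟨h1, _⟩ ⟨h2, _⟩ h
    exact Subtype.ext (Prod.ext (h1.trans h2.symm) (Fin.ext h))
  · intro n hn
    have := hcM x
    refine ⟨⟨(x, ⟨n, by have := hn.2; omega⟩), hn.2⟩, ⟨rfl, fun e => ?_⟩, rfl⟩
    have h2 := congrArg Fin.val e
    have := hn.1
    simp only [Fin.val_zero] at h2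
    omega

theorem exists_hom_of_leafy_iso (hc2 : ∀ x, 2 ≤ c x) (hcM : ∀ x, c x ≤ M)
    (ψ : leafy G c M ≃g leafy H c M) :
    ∃ φ : V → V, Function.Injective φ ∧ (∀ x, c (φ x) = c x) ∧
      ∀ x y, G.Adj x y → H.Adj (φ x) (φ y) := by
  have hr : ∀ x, (ψ (root c M x)).1.2 = 0 := fun x => (leafy_iso_leaf hc2 hcM ψ _).2 rfl
  refine ⟨fun x => (ψ (root c M x)).1.1, fun x y h => ?_, fun x => ?_, fun x y h => ?_⟩
  · have : ψ (root c M x) = ψ (root c M y) :=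
      Subtype.ext (Prod.ext h ((hr x).trans (hr y).symm))
    exact congrArg (fun q : LV c M => q.1.1) (ψ.injective this)
  · rw [← ncard_leaves hcM, ← ncard_leaves hcM x]
    symm
    refine Set.ncard_congr (fun y _ => ψ y) ?_ (fun _ _ _ _ h => ψ.injective h) ?_
    · intro y hy
      have h1 : (leafy G c M).Adj (root c M x) y := Or.inr ⟨hy.1.symm, Or.inl ⟨rfl, hy.2⟩⟩
      have h2 : (ψ y).1.2 ≠ 0 := fun e => hy.2 ((leafy_iso_leaf hc2 hcM ψ _).1 e)
      rcases ψ.map_adj_iff.2 h1 with h | h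
      · exact absurd h.2.1 h2
      · exact ⟨h.1.symm, h2⟩
    · intro y hy
      obtain ⟨y, rfl⟩ := ψ.surjective y
      refine ⟨y, ?_, rfl⟩
      have h1 : (leafy H c M).Adj (ψ (root c M x)) (ψ y) :=
        Or.inr ⟨hy.1.symm, Or.inl ⟨hr x, hy.2⟩⟩
      have h2 : y.1.2 ≠ 0 := fun e => hy.2 ((leafy_iso_leaf hc2 hcM ψ _).2 e)
      rcases ψ.map_adj_iff.1 h1 with h | h
      · exact absurd h.2.1 h2
      · exact ⟨h.1.symm, h2⟩
  · have h1 : (leafy G c M).Adj (root c M x) (root c M y) := Or.inl ⟨rfl, rfl, h⟩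
    rcases ψ.map_adj_iff.2 h1 with h | h
    · exact h.2.2
    · have := hr x
      have := hr y
      tauto

theorem Intervals.leafy [Fintype V] [Nonempty V] {P : Type} [LinearOrder P] [Fintype P]
    [Nonempty P] {k : ℕ} {l r : V → P} (h : Intervals G k l r) :
    PathwidthLE (leafy G c M) (k + 1) := by
  classical
  obtain ⟨N, hN⟩ : ∃ N, Fintype.card (LV c M) = N + 1 := by
    have : Nonempty (LV c M) := ⟨root c M (Classical.arbitrary V)⟩
    exact Nat.exists_eq_succ_of_ne_zero Fintype.card_ne_zero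
  let e : LV c M ≃ Fin (N + 1) := Fintype.equivFinOfCardEq hN
  let l' : LV c M → P ×ₗ Fin (N + 1) := fun q =>
    if q.1.2 = 0 then toLex (l q.1.1, 0) else toLex (l q.1.1, e q)
  let r' : LV c M → P ×ₗ Fin (N + 1) := fun q =>
    if q.1.2 = 0 then toLex (r q.1.1, Fin.last N) else toLex (l q.1.1, e q)
  have lex : ∀ {a b : P} {i j : Fin (N + 1)}, a ≤ b → i ≤ j → toLex (a, i) ≤ toLex (b, j) := by
    intro a b i j h1 h2
    rw [Prod.Lex.toLex_le_toLex]
    rcases h1.lt_or_eq with h | h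
    · exact Or.inl h
    · exact Or.inr ⟨h, h2⟩
  have lex' : ∀ {a b : P} {i j : Fin (N + 1)}, toLex (a, i) ≤ toLex (b, j) → a ≤ b := by
    intro a b i j h1
    rw [Prod.Lex.toLex_le_toLex] at h1
    rcases h1 with h | h
    · exact h.le
    · exact h.1.le
  refine Intervals.pathwidthLE (l := l') (r := r') ⟨fun q => ?_, fun q q' hq => ?_, fun p => ?_⟩
  · simp only [l', r']
    split_ifs
    · exact lex (h.le _) (Fin.zero_le _)
    · exact le_rfl
  · simp only [l', r']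
    rcases hq with ⟨a, b, hq⟩ | ⟨a, ⟨b, d⟩ | ⟨b, d⟩⟩
    · rw [if_pos a, if_pos b]
      exact lex (h.adj _ _ hq) (Fin.zero_le _)
    · rw [if_pos b, if_neg d, a]
      exact lex le_rfl (Fin.zero_le _)
    · rw [if_neg b, if_pos d, a]
      exact lex (h.le _) (Fin.le_last _)
  · obtain ⟨⟨p, n⟩, rfl⟩ := toLex.surjective p
    have hsub : {v | l' v ≤ toLex (p, n) ∧ toLex (p, n) ≤ r' v} ⊆
        insert (e.symm n) (root c M '' {v | l v ≤ p ∧ p ≤ r v}) := by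
      intro q hq
      simp only [l', r', Set.mem_ofPred_eq] at hq
      by_cases h0 : q.1.2 = 0
      · rw [if_pos h0, if_pos h0] at hq
        exact Or.inr ⟨q.1.1, ⟨lex' hq.1, lex' hq.2⟩, Subtype.ext (Prod.ext rfl h0.symm)⟩
      · rw [if_neg h0, if_neg h0] at hq
        have := congrArg (fun z => (ofLex z).2) (le_antisymm hq.1 hq.2)
        left
        rw [Equiv.eq_symm_apply]
        exact this
    refine (Set.ncard_le_ncard hsub (Set.toFinite _)).trans ((Set.ncard_insert_le _ _).trans ?_)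
    have := (Set.ncard_image_le (f := root c M) (s := {v | l v ≤ p ∧ p ≤ r v})
      (Set.toFinite _)).trans (h.depth p)
    omega

end Pool.Agent.P.MP_f1a348_lc.Tw
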