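import Pool.Agent.P.MP_f1a348_lc.Tw.Grid

set_option autoImplicit false

namespace Pool.Agent.P.MP_f1a348_lc.Tw

variable {t L : ℕ}

lemma perm_three (π : ZMod 3 → ZMod 3) (h : Function.Injective π) :
    ∃ ε : ZMod 2, π 1 - π 0 = sg ε ∧ (π 1 - π 0 = 1 → ε = 0) := by
  have h1 : π 1 - π 0 ≠ 0 := fun e => absurd (h (sub_eq_zero.1 e)) (by decide)
  generalize π 1 - π 0 = d at h1
  revert d
  decide

lemma sg_mul_eq (a b c : ZMod 2) (h : sg a * sg b = sg c) : a + b = c := by
  revert a b c; decide

lemma sum_boundary {n : ℕ} (f : Fin (n + 1) → ZMod 2) (h0 : f 0 = 0) (h1 : f (Fin.last n) = 0) :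
    ∑ j : Fin n, (f j.castSucc + f j.succ) = 0 := by
  have a := Fin.sum_univ_castSucc f
  have b := Fin.sum_univ_succ f
  rw [h1, add_zero] at a
  rw [h0, zero_add] at b
  rw [Finset.sum_add_distrib, ← a, ← b, CharTwo.add_self_eq_zero]

theorem no_hom (i₀ : Fin t) (j₀ : Fin L) (φ : Pt t L → Pt t L) (hi : Function.Injective φ)
    (hc : ∀ p, colour (φ p) = colour p)
    (hh : ∀ p q, (gr fun _ _ => 0).Adj p q → (gr (dl i₀ j₀)).Adj (φ p) (φ q)) : False := by
  have hv : ∀ i j a, ∃ a', φ (.v i j a) = .v i j a' ∧ (j.val = 0 ∨ j.val = L → a' = a) := by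
    intro i j a
    have := hc (.v i j a)
    generalize φ (.v i j a) = q at this
    cases q <;> simp only [colour, reduceCtorEq, Pt.v.injEq] at this
    obtain ⟨rfl, rfl, h⟩ := this
    exact ⟨_, rfl, fun hj => by simpa only [if_pos hj] using h⟩
  have hw : ∀ i j a, ∃ a', φ (.w i j a) = .w i j a' ∧ (i.val = 0 ∨ i.val = t → a' = a) := by
    intro i j a
    have := hc (.w i j a)
    generalize φ (.w i j a) = q at this
    cases q <;> simp only [colour, reduceCtorEq, Pt.w.injEq] at this
    obtain ⟨rfl, rfl, h⟩ := this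
    exact ⟨_, rfl, fun hj => by simpa only [if_pos hj] using h⟩
  choose π hπ hπ' using hv
  choose σ hσ hσ' using hw
  have hx : ∀ i j a b e e', φ (.x i j a b e e') =
      .x i j (π i j.castSucc a) (π i j.succ b) (σ i.castSucc j e) (σ i.succ j e') := by
    intro i j a b e e'
    have h0 := hc (.x i j a b e e')
    have h1 := hh (.x i j a b e e') (.v i j.castSucc a) (by simp [gr, rel])
    have h2 := hh (.x i j a b e e') (.v i j.succ b) (by simp [gr, rel])
    have h3 := hh (.x i j a b e e') (.w i.castSucc j e) (by simp [gr, rel])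
    have h4 := hh (.x i j a b e e') (.w i.succ j e') (by simp [gr, rel])
    rw [hπ] at h1 h2
    rw [hσ] at h3 h4
    generalize φ (.x i j a b e e') = q at h0 h1 h2 h3 h4
    cases q <;> simp only [colour, reduceCtorEq, Pt.x.injEq] at h0
    obtain ⟨rfl, rfl, -⟩ := h0
    simp [gr, rel, (Fin.castSucc_lt_succ).ne, (Fin.castSucc_lt_succ).ne'] at h1 h2 h3 h4
    rw [h1, h2, h3, h4]
  have hπi : ∀ i j, Function.Injective (π i j) := fun i j a b h => by
    have : φ (.v i j a) = φ (.v i j b) := by rw [hπ, hπ, h]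
    simpa using hi this
  choose ε hε hε' using fun i j => perm_three (π i j) (hπi i j)
  have key : ∀ i j, dl i₀ j₀ i j =
      (ε i j.castSucc + ε i j.succ) + (σ i.castSucc j 0 + σ i.succ j 0) := by
    intro i j
    have h := hh (.x i j 1 1 0 0) (.x i j 0 0 0 0) (by simp [gr, rel, sg])
    rw [hx, hx] at h
    have h2 : (π i j.castSucc 1 - π i j.castSucc 0) * (π i j.succ 1 - π i j.succ 0) =
        sg (dl i₀ j₀ i j + σ i.castSucc j 0 + σ i.succ j 0) := by
      simp only [gr, SimpleGraph.fromRel_adj, rel, true_and] at h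
      rcases h.2 with h | h
      · exact h
      · rw [← h]; ring
    rw [hε, hε] at h2
    rw [sg_mul_eq _ _ _ h2]
    generalize dl i₀ j₀ i j = A
    generalize σ i.castSucc j 0 = B
    generalize σ i.succ j 0 = C
    revert A B C
    decide
  have s1 : ∑ i, ∑ j, dl i₀ j₀ i j = 1 := by
    simp only [dl, ← ite_zero_mul_ite_zero_one, ← Finset.mul_sum, ← Finset.sum_mul]
    simp
  have s2 : ∑ i, ∑ j : Fin L, (ε i j.castSucc + ε i j.succ) = 0 := by
    refine Finset.sum_eq_zero fun i _ => sum_boundary (ε i) (hε' _ _ ?_) (hε' _ _ ?_)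
    · rw [hπ' _ _ _ (Or.inl rfl), hπ' _ _ _ (Or.inl rfl), sub_zero]
    · rw [hπ' _ _ _ (Or.inr rfl), hπ' _ _ _ (Or.inr rfl), sub_zero]
  have s3 : ∑ i : Fin t, ∑ j : Fin L, (σ i.castSucc j 0 + σ i.succ j 0) = 0 := by
    rw [Finset.sum_comm]
    exact Finset.sum_eq_zero fun j _ => sum_boundary (fun i => σ i j 0)
      (hσ' _ _ _ (Or.inl rfl)) (hσ' _ _ _ (Or.inr rfl))
  simp only [key, Finset.sum_add_distrib (f := fun j : Fin L => ε _ j.castSucc + ε _ j.succ),
    Finset.sum_add_distrib (f := fun i : Fin t => ∑ j : Fin L, (ε i j.castSucc + ε i j.succ)),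
    s2, s3] at s1
  exact absurd s1 (by decide)

/-- sweep positions -/
abbrev Pos (t L : ℕ) : Type := Fin L ×ₗ (Fin t ×ₗ Fin 12)

/-- a sweep position -/
def pos (j : Fin L) (i : Fin t) (n : Fin 12) : Pos t L := toLex (j, toLex (i, n))

lemma pos_le {j j' : Fin L} {i i' : Fin t} {n n' : Fin 12} : pos j i n ≤ pos j' i' n' ↔
    j.val < j'.val ∨ j.val = j'.val ∧ (i.val < i'.val ∨ i.val = i'.val ∧ n.val ≤ n'.val) := by
  simp only [pos, Prod.Lex.toLex_le_toLex, Fin.lt_def, Fin.le_def, Fin.ext_iff]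

/-- code of a triangle -/
def code (e e' : ZMod 2) (d : ZMod 3) : Fin 12 :=
  ⟨6 * e.val + 3 * e'.val + d.val, by
    have := e.val_lt; have := e'.val_lt; have := d.val_lt; omega⟩

/-- decoding -/
def decode (n : Fin 12) : ZMod 2 × ZMod 2 × ZMod 3 :=
  ((n.val / 6 : ℕ), (n.val / 3 : ℕ), (n.val : ℕ))

lemma decode_code (e e' : ZMod 2) (d : ZMod 3) : decode (code e e' d) = (e, e', d) := by
  revert e e' d; decide

lemma line_eq (E : ZMod 2) (a b a' b' : ZMod 3) (h : (a - a') * (b - b') = sg E) :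
    b - sg E * a = b' - sg E * a' := by
  revert E a b a' b'; decide

/-- left endpoints -/
def lft (ht : 0 < t) (hL : 0 < L) (T : Fin t → Fin L → ZMod 2) : Pt t L → Pos t L
  | .v i j _ => pos ⟨j.val - 1, by omega⟩ i 0
  | .w i j _ => pos j ⟨i.val - 1, by omega⟩ 0
  | .x i j a b e e' => pos j i (code e e' (b - sg (T i j + e + e') * a))

/-- right endpoints -/
def rgt (ht : 0 < t) (hL : 0 < L) (T : Fin t → Fin L → ZMod 2) : Pt t L → Pos t L
  | .v i j _ => pos ⟨min j.val (L - 1), by omega⟩ i (Fin.last 11)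
  | .w i j _ => pos j ⟨min i.val (t - 1), by omega⟩ (Fin.last 11)
  | .x i j a b e e' => pos j i (code e e' (b - sg (T i j + e + e') * a))

theorem intervals (ht : 0 < t) (hL : 0 < L) (T : Fin t → Fin L → ZMod 2) :
    Intervals (gr T) (3 * t + 9) (lft ht hL T) (rgt ht hL T) := by
  have hrel : ∀ p q, rel T p q → lft ht hL T p ≤ rgt ht hL T q ∧ lft ht hL T q ≤ rgt ht hL T p := by
    intro p q h
    cases p <;> cases q <;> simp only [rel] at h
    · rename_i i j a b e e' i' j' y
      have := (code e e' (b - sg (T i j + e + e') * a)).2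
      have := j.2
      obtain ⟨rfl, ⟨rfl, -⟩ | ⟨rfl, -⟩⟩ := h <;>
        simp only [lft, rgt, pos_le, Fin.val_castSucc, Fin.val_succ, Fin.val_zero,
          Fin.val_last, true_and, lt_self_iff_false, false_or, zero_le, and_true] <;> omega
    · rename_i i j a b e e' i' j' y
      have := (code e e' (b - sg (T i j + e + e') * a)).2
      have := i.2
      obtain ⟨rfl, ⟨rfl, -⟩ | ⟨rfl, -⟩⟩ := h <;>
        simp only [lft, rgt, pos_le, Fin.val_castSucc, Fin.val_succ, Fin.val_zero,
          Fin.val_last, true_and, lt_self_iff_false, false_or, zero_le, and_true] <;> omega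
    · obtain ⟨rfl, rfl, rfl, rfl, h⟩ := h
      simp only [lft, rgt, line_eq _ _ _ _ _ h, le_refl, and_self]
  refine ⟨fun p => ?_, fun p q h => ?_, fun p => ?_⟩
  · cases p with
    | v i j a =>
      have := j.2
      simp only [lft, rgt, pos_le, Fin.val_zero, Fin.val_last, true_and, lt_self_iff_false, false_or,
        zero_le, and_true, or_true]
      omega
    | w i j a =>
      have := i.2
      simp only [lft, rgt, pos_le, Fin.val_zero, Fin.val_last, true_and, lt_self_iff_false, false_or,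
        zero_le, and_true, or_true]
      omega
    | x i j a b e e' => exact le_rfl
  · rcases h.2 with h | h
    · exact (hrel _ _ h).1
    · exact (hrel _ _ h).2
  · obtain ⟨j, i, n, rfl⟩ : ∃ j i n, p = pos j i n := ⟨(ofLex p).1, (ofLex (ofLex p).2).1,
      (ofLex (ofLex p).2).2, rfl⟩
    let F : (Fin t × ZMod 3) ⊕ ZMod 3 ⊕ ZMod 2 ⊕ ZMod 2 ⊕ ZMod 3 → Pt t L := fun q =>
      match q with
      | .inl q => .v q.1 (if q.1.val < i.val then j.succ else j.castSucc) q.2
      | .inr (.inl a) => .v i j.succ a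
      | .inr (.inr (.inl e)) => .w i.castSucc j e
      | .inr (.inr (.inr (.inl e))) => .w i.succ j e
      | .inr (.inr (.inr (.inr a))) => .x i j a
          ((decode n).2.2 + sg (T i j + (decode n).1 + (decode n).2.1) * a)
          (decode n).1 (decode n).2.1
    have hsub : {v | lft ht hL T v ≤ pos j i n ∧ pos j i n ≤ rgt ht hL T v} ⊆ Set.range F := by
      intro q hq
      cases q with
      | v i' j' a =>
        simp only [lft, rgt, pos_le, Set.mem_ofPred_eq] at hq
        have := j'.2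
        have := j.2
        by_cases h1 : i'.val < i.val
        · refine ⟨.inl (i', a), ?_⟩
          simp only [F, if_pos h1, Pt.v.injEq, Fin.ext_iff, Fin.val_succ, true_and, and_true]
          omega
        · by_cases h2 : j'.val = j.val
          · refine ⟨.inl (i', a), ?_⟩
            simp only [F, if_neg h1, Pt.v.injEq, Fin.ext_iff, Fin.val_castSucc, true_and, and_true]
            omega
          · refine ⟨.inr (.inl a), ?_⟩
            simp only [F, Pt.v.injEq, Fin.ext_iff, Fin.val_succ, and_true]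
            omega
      | w i' j' a =>
        simp only [lft, rgt, pos_le, Set.mem_ofPred_eq] at hq
        have := i'.2
        have := i.2
        by_cases h2 : i'.val = i.val
        · refine ⟨.inr (.inr (.inl a)), ?_⟩
          simp only [F, Pt.w.injEq, Fin.ext_iff, Fin.val_castSucc, and_true]
          omega
        · refine ⟨.inr (.inr (.inr (.inl a))), ?_⟩
          simp only [F, Pt.w.injEq, Fin.ext_iff, Fin.val_succ, and_true]
          omega
      | x i' j' a b e e' =>
        simp only [lft, rgt, pos_le, Set.mem_ofPred_eq] at hq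
        obtain rfl : i' = i := Fin.ext (by omega)
        obtain rfl : j' = j := Fin.ext (by omega)
        obtain rfl : code e e' (b - sg (T i' j' + e + e') * a) = n := Fin.ext (by omega)
        refine ⟨.inr (.inr (.inr (.inr a))), ?_⟩
        simp only [F, decode_code, sub_add_cancel]
    refine (Set.ncard_le_ncard hsub (Set.toFinite _)).trans ?_
    rw [← Set.image_univ]
    refine (Set.ncard_image_le (Set.toFinite _)).trans ?_
    rw [Set.ncard_univ, Nat.card_eq_fintype_card]
    simp only [Fintype.card_sum, Fintype.card_prod, Fintype.card_fin, ZMod.card]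
    omega

theorem main (t : ℕ) (ht : 0 < t) :
    ∃ (V : Type) (_ : Fintype V) (G H : SimpleGraph V),
      PathwidthLE G (3 * t + 10) ∧ PathwidthLE H (3 * t + 10) ∧ IsEmpty (G ≃g H) ∧
        ∀ k < 2 * t, ¬ WLDistinguishes k G H := by
  classical
  let L := 2 * t + 1
  have hL : 0 < L := Nat.succ_pos _
  let i₀ : Fin t := ⟨0, ht⟩
  let j₀ : Fin L := ⟨0, hL⟩
  let c : Pt t L → ℕ := fun p => (Fintype.equivFin (Pt t L) (colour p)).val + 2
  let M := Fintype.card (Pt t L) + 2
  have hc2 : ∀ p, 2 ≤ c p := fun p => Nat.le_add_left _ _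
  have hcM : ∀ p, c p ≤ M := fun p =>
    Nat.add_le_add_right (Fintype.equivFin (Pt t L) (colour p)).2.le _
  have : Nonempty (Pt t L) := ⟨.v i₀ 0 0⟩
  have : Nonempty (Pos t L) := ⟨pos j₀ i₀ 0⟩
  refine ⟨LV c M, inferInstance, leafy (gr fun _ _ => 0) c M, leafy (gr (dl i₀ j₀)) c M,
    (intervals ht hL _).leafy, (intervals ht hL _).leafy, ⟨fun ψ => ?_⟩, fun k hk => ?_⟩
  · obtain ⟨φ, h1, h2, h3⟩ := exists_hom_of_leafy_iso hc2 hcM ψ
    refine no_hom i₀ j₀ φ h1 (fun p => ?_) h3
    exact (Fintype.equivFin (Pt t L)).injective (Fin.ext (Nat.add_right_cancel (h2 p)))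
  · obtain ⟨Good, hS, hG⟩ := exists_strategy i₀ j₀ (Nat.lt_succ_self _)
    obtain ⟨Good', hS'⟩ := hS.leafy (c := c) (M := M) fun R hR p hp => by
      simp only [c, hG R hR p hp]
    exact hS'.not_distinguishes (by omega)

end Pool.Agent.P.MP_f1a348_lc.Tw
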